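import Mathlib

/-!
# MP_763071_co : a monochromatic rectangle
-/

set_option autoImplicit false

namespace Pool.Agent.MP763071.Two

theorem pigeon (n : ℕ) (C : Type) [Fintype C] : ∃ n' : ℕ, ∀ col : Fin n' → Fin n' → C,
    ∃ I J : Fin n → Fin n', Function.Injective I ∧ Function.Injective J ∧ (∀ i j, I i ≠ J j) ∧
      ∀ i j i' j', col (I i) (J j) = col (I i') (J j') := by
  classical
  rcases isEmpty_or_nonempty C with hC | hC
  · exact ⟨1, fun col => (hC.false (col 0 0)).elim⟩
  obtain ⟨q, hq⟩ : ∃ q, q = Fintype.card C := ⟨_, rfl⟩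
  obtain ⟨A, hA⟩ : ∃ A, A = q * n := ⟨_, rfl⟩
  obtain ⟨B, hB⟩ : ∃ B, B = q ^ A * n := ⟨_, rfl⟩
  refine ⟨A + B, fun col => ?_⟩
  obtain ⟨v, hv⟩ := Fintype.exists_le_card_fiber_of_mul_le_card (α := Fin B) (β := Fin A → C)
    (n := n) (fun j i => col (Fin.castAdd B i) (Fin.natAdd A j)) (by
      rw [Fintype.card_fun, Fintype.card_fin, Fintype.card_fin, ← hq, hB])
  obtain ⟨c, hc⟩ := Fintype.exists_le_card_fiber_of_mul_le_card (α := Fin A) (β := C) (n := n) v
    (by rw [Fintype.card_fin, ← hq, hA])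
  obtain ⟨J, hJ⟩ := Function.Embedding.exists_of_card_le_finset
    (α := Fin n) (by rw [Fintype.card_fin]; exact hv)
  obtain ⟨I, hI⟩ := Function.Embedding.exists_of_card_le_finset
    (α := Fin n) (by rw [Fintype.card_fin]; exact hc)
  have hJ' : ∀ j, (fun i => col (Fin.castAdd B i) (Fin.natAdd A (J j))) = v := by
    intro j
    have := hJ ⟨j, rfl⟩
    rw [Finset.mem_coe, Finset.mem_filter] at this
    exact this.2
  have hI' : ∀ i, v (I i) = c := by
    intro i
    have := hI ⟨i, rfl⟩
    rw [Finset.mem_coe, Finset.mem_filter] at this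
    exact this.2
  have key : ∀ i j, col (Fin.castAdd B (I i)) (Fin.natAdd A (J j)) = c := by
    intro i j
    have := congrFun (hJ' j) (I i)
    rw [← hI' i]
    exact this
  refine ⟨fun i => Fin.castAdd B (I i), fun j => Fin.natAdd A (J j), ?_, ?_, ?_, ?_⟩
  · intro i i' h
    exact I.injective (Fin.castAdd_injective A B h)
  · intro i i' h
    apply J.injective
    have h' : Fin.natAdd A (J i) = Fin.natAdd A (J i') := h
    rw [Fin.ext_iff] at h' ⊢
    simp only [Fin.val_natAdd] at h'
    omega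
  · intro i j h
    have h' : Fin.castAdd B (I i) = Fin.natAdd A (J j) := h
    rw [Fin.ext_iff] at h'
    simp only [Fin.val_castAdd, Fin.val_natAdd] at h'
    have := (I i).2
    omega
  · intro i j i' j'
    show col (Fin.castAdd B (I i)) (Fin.natAdd A (J j)) =
      col (Fin.castAdd B (I i')) (Fin.natAdd A (J j'))
    rw [key, key]

end Pool.Agent.MP763071.Two
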