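import Pool.Agent.Lib.MP_763071_co.KK.WalkMinor

/-!
# MP_763071_co : minors from walks between two groups of parts
-/

set_option autoImplicit false

namespace Pool.Agent.MP763071.Two

open Pool.Agent.MP763071.KK
open Pool.Agent.MP763071.KK.WalkMinorAux

/-- parts `0, …, n - 1` and `n, …, 2 n - 1`, with a walk for every pair of parts of the two groups -/
theorem walkMinor2 {V : Type} (G : SimpleGraph V) (n : ℕ) (K : Fin (n + n) → Set V)
    (X : V → Set (Fin (n + n))) (hconn : ∀ i, (G.induce (K i)).Connected)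
    (hK : ∀ i j, i ≠ j → Disjoint (K i) (K j)) (hX : ∀ i, ∀ w ∈ K i, i ∈ X w)
    (hw : ∀ i j : Fin n, ∃ (L T : ℕ) (w : ℕ → V), w 0 ∈ K (Fin.natAdd n j) ∧
      w L ∈ K (Fin.castAdd n i) ∧ (∀ t < L, G.Adj (w t) (w (t + 1))) ∧
      (∀ t ≤ L, t ≤ T → Fin.natAdd n j ∈ X (w t)) ∧
      (∀ t ≤ L, T < t → Fin.castAdd n i ∈ X (w t)) ∧
      ∀ t ≤ L, X (w t) ⊆ {Fin.castAdd n i, Fin.natAdd n j}) :
    HasMinor G n := by
  have hadj : ∀ i j : Fin n, ∃ x ∈ BB G K X (Fin.natAdd n j), ∃ y ∈ BB G K X (Fin.castAdd n i),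
      G.Adj x y := by
    intro i j
    obtain ⟨L, T, w, a1, a2, a3, a4, a5, a6⟩ := hw i j
    have hlt : Fin.castAdd n i < Fin.natAdd n j := by
      rw [Fin.lt_def]
      simp only [Fin.val_castAdd, Fin.val_natAdd]
      omega
    exact BB_adj hK hlt a1 a2 a3 a4 a5 a6
  have hdisj : ∀ i j : Fin (n + n), i ≠ j → ∀ v, v ∈ BB G K X i → v ∉ BB G K X j := by
    intro i j hij v h1 h2
    rcases lt_or_gt_of_ne hij with h | h
    · exact BB_lt hK hX h h1 h2
    · exact BB_lt hK hX h h2 h1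
  refine ⟨fun i => BB G K X (Fin.castAdd n i) ∪ BB G K X (Fin.natAdd n i), ?_, ?_, ?_⟩
  · intro i
    obtain ⟨x, hx, y, hy, hxy⟩ := hadj i i
    exact SimpleGraph.connected_induce_union (BB_conn hconn _).preconnected
      (BB_conn hconn _).preconnected hy hx hxy.symm
  · intro i j hij
    rw [Set.disjoint_left]
    have n1 : Fin.castAdd n i ≠ Fin.castAdd n j := by
      intro h
      exact hij (Fin.castAdd_injective n n h)
    have n2 : Fin.natAdd n i ≠ Fin.natAdd n j := by
      intro h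
      apply hij
      rw [Fin.ext_iff] at h ⊢
      simp only [Fin.val_natAdd] at h
      omega
    have n3 : ∀ i j : Fin n, Fin.castAdd n i ≠ Fin.natAdd n j := by
      intro i j h
      rw [Fin.ext_iff] at h
      simp only [Fin.val_castAdd, Fin.val_natAdd] at h
      have := i.2
      omega
    rintro v (h1 | h1) (h2 | h2)
    · exact hdisj _ _ n1 v h1 h2
    · exact hdisj _ _ (n3 i j) v h1 h2
    · exact hdisj _ _ (n3 j i).symm v h1 h2
    · exact hdisj _ _ n2 v h1 h2
  · intro i j hij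
    obtain ⟨x, hx, y, hy, hxy⟩ := hadj i j
    exact ⟨y, Or.inl hy, x, Or.inr hx, hxy.symm⟩

end Pool.Agent.MP763071.Two
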