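import Pool.Agent.Lib.MP_763071_co.Two.Path
import Pool.Agent.Lib.MP_763071_co.Two.Walk
import Pool.Agent.Lib.MP_763071_co.Two.Pigeon
import Pool.Agent.Lib.MP_763071_co.KK.Hub
import Pool.Agent.Lib.MP_763071_co.KK.FreeSet

/-!
# MP_763071_co : models of hubs of a merged backbone give minors
-/

set_option autoImplicit false
set_option linter.unusedSectionVars false

namespace Pool.Agent.MP763071.Two

open Pool.Agent.MP763071.KK
open Pool.Agent.MP763071.KK.HubAux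
open Pool.Agent.MP763071.KK.HubPathAux (exists_sat sat_le adj_of_covBy)

namespace HubTwo

variable {P : Type} [PartialOrder P]

/-- the elements between two elements of the backbone of type `α` in the segment `S` -/
def Kt {m : ℕ} (h : ℕ) (ch : ℕ → P) (ty : ℕ → Fin m) (S : Set ℕ) (α : Fin m) : Set P :=
  {v | ∃ a b, a ∈ S ∧ 1 ≤ a ∧ a ≤ h ∧ ty a = α ∧ b ∈ S ∧ 1 ≤ b ∧ b ≤ h ∧ ty b = α ∧
    ch a ≤ v ∧ v ≤ ch b}

theorem Kt_mem {m κ h : ℕ} {ch : ℕ → P} {ty : ℕ → Fin m} {l r : P → ℕ}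
    (hB : B2 P m κ h ch ty l r) {S : Set ℕ} (hS : S.OrdConnected) {α : Fin m} {v : P}
    (hv : v ∈ Kt h ch ty S α) : l v ∈ S ∧ r v ∈ S := by
  obtain ⟨a, b, ha, ha1, hah, -, hb, hb1, hbh, -, h1, h2⟩ := hv
  have e1 := hB.l_mono _ _ h1
  have e2 := hB.r_mono _ _ h2
  have e3 := hB.l_le_r v
  rw [hB.l_ch a ha1 hah] at e1
  rw [hB.r_ch b hb1 hbh] at e2
  exact ⟨hS.out ha hb ⟨e1, by omega⟩, hS.out ha hb ⟨by omega, e2⟩⟩

theorem reach [Fintype P] {K : Set P} (hK : K.OrdConnected) {u v : P} (hu : u ∈ K) (hv : v ∈ K)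
    (huv : u ≤ v) : ((CG P).induce K).Reachable ⟨u, hu⟩ ⟨v, hv⟩ := by
  obtain ⟨L, w, hw⟩ := exists_sat huv
  have hin : ∀ t, t ≤ L → w t ∈ K := by
    intro t ht
    have e1 := sat_le hw 0 t (by omega) ht
    have e2 := sat_le hw t L ht le_rfl
    rw [hw.1] at e1
    rw [hw.2.1] at e2
    exact hK.out hu hv ⟨e1, e2⟩
  have key : ∀ t, (ht : t ≤ L) → ((CG P).induce K).Reachable ⟨w 0, hin 0 (by omega)⟩
      ⟨w t, hin t ht⟩ := by
    intro t
    induction t with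
    | zero => intro _; exact SimpleGraph.Reachable.refl _
    | succ t ih =>
      intro ht
      refine (ih (by omega)).trans (SimpleGraph.Adj.reachable ?_)
      rw [SimpleGraph.induce_adj]
      exact adj_of_covBy (hw.2.2 t (by omega))
  have h3 := key L le_rfl
  have e1 : (⟨w 0, hin 0 (by omega)⟩ : K) = ⟨u, hu⟩ := Subtype.ext hw.1
  have e2 : (⟨w L, hin L le_rfl⟩ : K) = ⟨v, hv⟩ := Subtype.ext hw.2.1
  rw [e1, e2] at h3
  exact h3

theorem Kt_conv {m h : ℕ} {ch : ℕ → P} {ty : ℕ → Fin m} {S : Set ℕ} {α : Fin m} :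
    (Kt h ch ty S α).OrdConnected := by
  constructor
  rintro u ⟨a, b, ha, ha1, hah, hat, hb, hb1, hbh, hbt, h1, h2⟩ v
    ⟨a', b', ha', ha1', hah', hat', hb', hb1', hbh', hbt', h1', h2'⟩ w ⟨hw1, hw2⟩
  exact ⟨a, b', ha, ha1, hah, hat, hb', hb1', hbh', hbt', h1.trans hw1, hw2.trans h2'⟩

theorem Kt_ch {m h : ℕ} {ch : ℕ → P} {ty : ℕ → Fin m} {S : Set ℕ} {α : Fin m} {a : ℕ}
    (ha : a ∈ S) (ha1 : 1 ≤ a) (hah : a ≤ h) (hat : ty a = α) : ch a ∈ Kt h ch ty S α :=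
  ⟨a, a, ha, ha1, hah, hat, ha, ha1, hah, hat, le_rfl, le_rfl⟩

theorem Kt_conn [Fintype P] {m κ h : ℕ} {ch : ℕ → P} {ty : ℕ → Fin m} {l r : P → ℕ}
    (hB : B2 P m κ h ch ty l r) {S : Set ℕ} {α : Fin m} {a0 : ℕ} (ha0 : a0 ∈ S) (ha01 : 1 ≤ a0)
    (ha0h : a0 ≤ h) (ha0t : ty a0 = α) : ((CG P).induce (Kt h ch ty S α)).Connected := by
  rw [SimpleGraph.connected_iff_exists_forall_reachable]
  refine ⟨⟨ch a0, Kt_ch ha0 ha01 ha0h ha0t⟩, ?_⟩
  rintro ⟨v, hv⟩
  obtain ⟨a, b, ha, ha1, hah, hat, hb, hb1, hbh, hbt, h1, h2⟩ := id hv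
  have r1 := reach Kt_conv (Kt_ch ha ha1 hah hat) hv h1
  refine SimpleGraph.Reachable.trans ?_ r1
  rcases lt_trichotomy a0 a with h3 | h3 | h3
  · exact reach Kt_conv _ _ (hB.mono a0 a ha01 h3 hah (ha0t.trans hat.symm)).le
  · subst h3
    exact SimpleGraph.Reachable.refl _
  · exact (reach Kt_conv (Kt_ch ha ha1 hah hat) (Kt_ch ha0 ha01 ha0h ha0t)
      (hB.mono a a0 ha1 h3 ha0h (hat.trans ha0t.symm)).le).symm

/-- the walk of a pair -/
theorem walk [Fintype P] {m κ h : ℕ} {ch : ℕ → P} {ty : ℕ → Fin m} {l r π : P → ℕ}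
    (hB : B2 P m κ h ch ty l r) {S : ℕ → Set ℕ} {own : P → ℕ} {N i j : ℕ} (hi : i < N) (hj : j < N)
    {z : P} {a b : ℕ} (ha : a ∈ HA κ π l r z) (hb : b ∈ HA κ π l r z) (haS : a ∈ S i)
    (hbS : b ∈ S j) (ha1 : 1 ≤ a) (hah : a ≤ h) (hb1 : 1 ≤ b) (hbh : b ≤ h)
    (ho : own z = i ∨ own z = j) :
    ∃ (L T : ℕ) (w : ℕ → P), L ≤ 4 * κ ∧ w 0 = ch b ∧ w L = ch a ∧
      (∀ t < L, (CG P).Adj (w t) (w (t + 1))) ∧
      (∀ t ≤ L, t ≤ T → j ∈ As κ l r π S own N (w t)) ∧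
      ∀ t ≤ L, T < t → i ∈ As κ l r π S own N (w t) := by
  obtain ⟨L₁, T₁, w₁, hT₁, hL₁, hw₁0, hw₁L, hadj₁, hlr₁, hWR₁⟩ := path hB ha ha1 hah
  obtain ⟨L₂, T₂, w₂, hT₂, hL₂, hw₂0, hw₂L, hadj₂, hlr₂, hWR₂⟩ := path hB hb hb1 hbh
  have A1 : ∀ t ≤ T₁, i ∈ As κ l r π S own N (w₁ t) := by
    intro t ht
    rcases hlr₁ t ht with h3 | h3
    · exact Or.inl ⟨hi, by rw [h3]; exact haS⟩
    · exact Or.inr (Or.inl ⟨hi, by rw [h3]; exact haS⟩)
  have A2 : ∀ t ≤ T₂, j ∈ As κ l r π S own N (w₂ t) := by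
    intro t ht
    rcases hlr₂ t ht with h3 | h3
    · exact Or.inl ⟨hj, by rw [h3]; exact hbS⟩
    · exact Or.inr (Or.inl ⟨hj, by rw [h3]; exact hbS⟩)
  have B1 : ∀ t ≤ L₁, T₁ ≤ t → own z ∈ As κ l r π S own N (w₁ t) := fun t ht ht2 =>
    Or.inr (Or.inr ⟨z, hWR₁ t ht ht2, rfl⟩)
  have B2 : ∀ t ≤ L₂, T₂ ≤ t → own z ∈ As κ l r π S own N (w₂ t) := fun t ht ht2 =>
    Or.inr (Or.inr ⟨z, hWR₂ t ht ht2, rfl⟩)
  let w : ℕ → P := fun t => if t ≤ L₂ then w₂ t else w₁ (L₁ + L₂ - t)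
  have wle : ∀ t, t ≤ L₂ → w t = w₂ t := fun t ht => if_pos ht
  have wgt : ∀ t, L₂ < t → w t = w₁ (L₁ + L₂ - t) := fun t ht => if_neg (by omega)
  have hw0 : w 0 = ch b := by
    rw [wle 0 (Nat.zero_le _), hw₂0]
  have hwL : w (L₁ + L₂) = ch a := by
    rcases Nat.eq_zero_or_pos L₁ with h3 | h3
    · rw [wle _ (by omega)]
      have h4 : L₁ + L₂ = L₂ := by omega
      have h5 : w₁ L₁ = ch a := by rw [h3]; exact hw₁0
      rw [h4, hw₂L, ← hw₁L, h5]
    · rw [wgt _ (by omega), Nat.sub_self, hw₁0]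
  have hadj : ∀ t < L₁ + L₂, (CG P).Adj (w t) (w (t + 1)) := by
    intro t ht
    by_cases h3 : t + 1 ≤ L₂
    · rw [wle t (by omega), wle (t + 1) h3]
      exact hadj₂ t (by omega)
    · by_cases h4 : t = L₂
      · rw [wle t h4.le, wgt (t + 1) (by omega), h4, hw₂L, ← hw₁L]
        have h5 := (hadj₁ (L₁ - 1) (by omega)).symm
        have h6 : L₁ - 1 + 1 = L₁ := by omega
        have h7 : L₁ + L₂ - (L₂ + 1) = L₁ - 1 := by omega
        rw [h6] at h5
        rw [h7]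
        exact h5
      · rw [wgt t (by omega), wgt (t + 1) (by omega)]
        have h5 := (hadj₁ (L₁ + L₂ - (t + 1)) (by omega)).symm
        have h6 : L₁ + L₂ - (t + 1) + 1 = L₁ + L₂ - t := by omega
        rw [h6] at h5
        exact h5
  rcases ho with ho | ho
  · refine ⟨L₁ + L₂, T₂, w, by omega, hw0, hwL, hadj, ?_, ?_⟩
    · intro t _ ht2
      rw [wle t (by omega)]
      exact A2 t ht2
    · intro t ht ht2
      by_cases h3 : t ≤ L₂
      · rw [wle t h3, ← ho]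
        exact B2 t h3 ht2.le
      · rw [wgt t (by omega)]
        by_cases h4 : L₁ + L₂ - t ≤ T₁
        · exact A1 _ h4
        · have h5 := B1 (L₁ + L₂ - t) (by omega) (by omega)
          rwa [ho] at h5
  · refine ⟨L₁ + L₂, L₂ + (L₁ - T₁), w, by omega, hw0, hwL, hadj, ?_, ?_⟩
    · intro t ht ht2
      by_cases h3 : t ≤ L₂
      · rw [wle t h3]
        by_cases h4 : t ≤ T₂
        · exact A2 t h4
        · have h5 := B2 t h3 (by omega)
          rwa [ho] at h5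
      · rw [wgt t (by omega)]
        have h5 := B1 (L₁ + L₂ - t) (by omega) (by omega)
        rwa [ho] at h5
    · intro t ht ht2
      rw [wgt t (by omega)]
      exact A1 _ (by omega)

theorem HA_le {m κ h : ℕ} {ch : ℕ → P} {ty : ℕ → Fin m} {l r π : P → ℕ}
    (hB : B2 P m κ h ch ty l r) {z : P} {a : ℕ} (ha : a ∈ HA κ π l r z) : a ≤ h + 1 := by
  rcases ha with ⟨x, -, rfl⟩ | ⟨y, -, rfl⟩
  · exact hB.r_le x
  · exact (hB.l_le y).trans (Nat.le_succ h)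

end HubTwo

open HubTwo in
theorem hub (n m κ c : ℕ) : ∃ N : ℕ, ∀ (P : Type) [Fintype P] [PartialOrder P] (h : ℕ)
    (ch : ℕ → P) (ty : ℕ → Fin m) (l r π : P → ℕ), B2 P m κ h ch ty l r →
    (∀ v, {u | WR (CG P) π κ v u}.ncard ≤ c) →
      ¬ HasMinor (CG P) n → ¬ Model (HA κ π l r) Set.univ 0 N := by
  classical
  obtain ⟨n', hpig⟩ := pigeon n (Fin m × Fin m)
  obtain ⟨D, hD⟩ : ∃ D, D = (4 * κ + 1) * (c + 2) := ⟨_, rfl⟩
  refine ⟨n' ^ 2 + n' ^ 3 * D + 2 * n' + 3, ?_⟩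
  obtain ⟨N, hN⟩ : ∃ N, N = n' ^ 2 + n' ^ 3 * D + 2 * n' + 3 := ⟨_, rfl⟩
  rw [← hN]
  intro P _ _ h ch ty l r π hB hc hmin hmodel
  obtain ⟨mm, p, hmp, hp, S, hS1, hS2, own, hown⟩ := hmodel
  have hp0 : p = 0 := by omega
  have hmN : mm = N := by omega
  subst hmN
  clear hp hmp
  have H : ∀ i j, i ≠ j → i < mm → j < mm → ∃ z, (own z = i ∨ own z = j) ∧
      (HA κ π l r z ∩ S i).Nonempty ∧ (HA κ π l r z ∩ S j).Nonempty := by
    intro i j hij hi hj
    rcases lt_or_gt_of_ne hij with h4 | h4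
    · obtain ⟨z, -, h5, h6, h7⟩ := hown i j h4 hj
      exact ⟨z, h5, h6 hi, h7 hj⟩
    · obtain ⟨z, -, h5, h6, h7⟩ := hown j i h4 hi
      exact ⟨z, h5.symm, h7 hi, h6 hj⟩
  -- the bad parts
  let Z : Finset ℕ := (Finset.range mm).filter (fun i => 0 ∈ S i ∨ h + 1 ∈ S i)
  have hZ : Z.card ≤ 2 := by
    have e : Z = (Finset.range mm).filter (fun i => 0 ∈ S i) ∪
        (Finset.range mm).filter (fun i => h + 1 ∈ S i) := by
      rw [← Finset.filter_or]
    have k : ∀ v, ((Finset.range mm).filter (fun i => v ∈ S i)).card ≤ 1 := by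
      intro v
      rw [Finset.card_le_one]
      intro i hi j hj
      simp only [Finset.mem_filter, Finset.mem_range] at hi hj
      exact seg_subsingleton hS2 v hi hj
    rw [e]
    have := Finset.card_union_le ((Finset.range mm).filter (fun i => 0 ∈ S i))
      ((Finset.range mm).filter (fun i => h + 1 ∈ S i))
    have k0 := k 0
    have k1 := k (h + 1)
    omega
  have hZ2 : ∀ i, i < mm → i ∉ Z → ∀ z, ∀ a ∈ HA κ π l r z, a ∈ S i → 1 ≤ a ∧ a ≤ h := by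
    intro i hi hiZ z a ha haS
    have h4 := HA_le hB ha
    constructor
    · by_contra hcon
      have h5 : a = 0 := by omega
      apply hiZ
      simp only [Z, Finset.mem_filter, Finset.mem_range]
      exact ⟨hi, Or.inl (by rw [← h5]; exact haS)⟩
    · by_contra hcon
      have h5 : a = h + 1 := by omega
      apply hiZ
      simp only [Z, Finset.mem_filter, Finset.mem_range]
      exact ⟨hi, Or.inr (by rw [← h5]; exact haS)⟩
  have hX : ∀ i j : ℕ, ∃ X : Finset ℕ, X.card ≤ D ∧ (i ≠ j → i < mm → j < mm → i ∉ Z → j ∉ Z →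
      ∃ (L T : ℕ) (w : ℕ → P) (a b : ℕ), (a ∈ S i ∧ 1 ≤ a ∧ a ≤ h) ∧ (b ∈ S j ∧ 1 ≤ b ∧ b ≤ h) ∧
      w 0 = ch b ∧ w L = ch a ∧
      (∀ t < L, (CG P).Adj (w t) (w (t + 1))) ∧
      (∀ t ≤ L, t ≤ T → j ∈ As κ l r π S own mm (w t)) ∧
      (∀ t ≤ L, T < t → i ∈ As κ l r π S own mm (w t)) ∧
      ∀ t ≤ L, ∀ k ∈ As κ l r π S own mm (w t), k ∈ X) := by
    intro i j
    by_cases hcond : i ≠ j ∧ i < mm ∧ j < mm ∧ i ∉ Z ∧ j ∉ Z
    · obtain ⟨hij, hi, hj, hiZ, hjZ⟩ := hcond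
      obtain ⟨z, ho, ⟨a, ha, haS⟩, ⟨b, hb, hbS⟩⟩ := H i j hij hi hj
      obtain ⟨ha1, hah⟩ := hZ2 i hi hiZ z a ha haS
      obtain ⟨hb1, hbh⟩ := hZ2 j hj hjZ z b hb hbS
      obtain ⟨L, T, w, hL, e1, e2, e3, e4, e5⟩ :=
        walk hB hi hj ha hb haS hbS ha1 hah hb1 hbh ho
      refine ⟨(Finset.range (L + 1)).biUnion
        (fun t => (As_card (l := l) (r := r) (own := own) hS2 hc (w t)).1.toFinset), ?_, ?_⟩
      · refine (Finset.card_biUnion_le_card_mul _ _ (c + 2) ?_).trans ?_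
        · intro t _
          rw [← Set.ncard_eq_toFinset_card _ _]
          exact (As_card hS2 hc (w t)).2
        · rw [Finset.card_range, hD]
          exact Nat.mul_le_mul_right _ (by omega)
      · intro _ _ _ _ _
        refine ⟨L, T, w, a, b, ⟨haS, ha1, hah⟩, ⟨hbS, hb1, hbh⟩, e1, e2, e3, e4, e5, ?_⟩
        intro t ht k hk
        rw [Finset.mem_biUnion]
        exact ⟨t, Finset.mem_range.mpr (by omega), (Set.Finite.mem_toFinset _).mpr hk⟩
    · refine ⟨∅, by simp, ?_⟩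
      intro q1 q2 q3 q4 q5
      exact absurd ⟨q1, q2, q3, q4, q5⟩ hcond
  choose X hXc hXw using hX
  obtain ⟨g, ginj, gN, gZ, gX⟩ := freeSet n' D mm X Z (by omega) hXc hZ
  have gne : ∀ i j : Fin n', i ≠ j → g i ≠ g j := fun i j hij h4 => hij (ginj h4)
  -- the walks of the pairs of the free set
  have hW : ∀ i j : Fin n', ∃ (L T : ℕ) (w : ℕ → P) (a b : ℕ), i ≠ j →
      (a ∈ S (g i) ∧ 1 ≤ a ∧ a ≤ h) ∧ (b ∈ S (g j) ∧ 1 ≤ b ∧ b ≤ h) ∧
      w 0 = ch b ∧ w L = ch a ∧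
      (∀ t < L, (CG P).Adj (w t) (w (t + 1))) ∧
      (∀ t ≤ L, t ≤ T → g j ∈ As κ l r π S own mm (w t)) ∧
      (∀ t ≤ L, T < t → g i ∈ As κ l r π S own mm (w t)) ∧
      ∀ t ≤ L, ∀ k ∈ As κ l r π S own mm (w t), k ∈ X (g i) (g j) := by
    intro i j
    by_cases hij : i = j
    · refine ⟨0, 0, fun _ => ch 0, 0, 0, fun h => absurd hij h⟩
    · obtain ⟨L, T, w, a, b, q⟩ :=
        hXw (g i) (g j) (gne i j hij) (gN i) (gN j) (gZ i) (gZ j)
      exact ⟨L, T, w, a, b, fun _ => q⟩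
  choose LL TT ww aa bb hww using hW
  obtain ⟨I, J, hI, hJ, hIJ, hcol⟩ := hpig (fun i j => (ty (aa i j), ty (bb i j)))
  apply hmin
  rcases Nat.eq_zero_or_pos n with hn | hn
  · subst hn
    exact ⟨fun i => i.elim0, fun i => i.elim0, fun i => i.elim0, fun i => i.elim0⟩
  let o : Fin n := ⟨0, hn⟩
  let α : Fin m := ty (aa (I o) (J o))
  let β : Fin m := ty (bb (I o) (J o))
  have hα : ∀ i j, ty (aa (I i) (J j)) = α := fun i j => (Prod.ext_iff.1 (hcol i j o o)).1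
  have hβ : ∀ i j, ty (bb (I i) (J j)) = β := fun i j => (Prod.ext_iff.1 (hcol i j o o)).2
  let G : Fin (n + n) → Fin n' := Fin.append I J
  let tt : Fin (n + n) → Fin m := Fin.append (fun _ => α) (fun _ => β)
  have eL : ∀ i, G (Fin.castAdd n i) = I i := fun i => Fin.append_left I J i
  have eR : ∀ i, G (Fin.natAdd n i) = J i := fun i => Fin.append_right I J i
  have tL : ∀ i : Fin n, tt (Fin.castAdd n i) = α := fun i => Fin.append_left _ _ i
  have tR : ∀ i : Fin n, tt (Fin.natAdd n i) = β := fun i => Fin.append_right _ _ i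
  have Ginj : Function.Injective G := by
    intro s t hst
    induction s using Fin.addCases with
    | left i =>
      induction t using Fin.addCases with
      | left j =>
        rw [eL, eL] at hst
        rw [hI hst]
      | right j =>
        rw [eL, eR] at hst
        exact absurd hst (hIJ i j)
    | right i =>
      induction t using Fin.addCases with
      | left j =>
        rw [eL, eR] at hst
        exact absurd hst.symm (hIJ j i)
      | right j =>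
        rw [eR, eR] at hst
        rw [hJ hst]
  refine walkMinor2 (CG P) n (fun s => Kt h ch ty (S (g (G s))) (tt s))
    (fun w => {s | g (G s) ∈ As κ l r π S own mm w}) ?_ ?_ ?_ ?_
  · intro s
    induction s using Fin.addCases with
    | left i =>
      obtain ⟨⟨q1, q2, q3⟩, -⟩ := hww (I i) (J i) (hIJ i i)
      refine Kt_conn hB (a0 := aa (I i) (J i)) ?_ q2 q3 ?_
      · rw [eL]
        exact q1
      · rw [tL]
        exact hα i i
    | right i =>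
      obtain ⟨-, ⟨q1, q2, q3⟩, -⟩ := hww (I i) (J i) (hIJ i i)
      refine Kt_conn hB (a0 := bb (I i) (J i)) ?_ q2 q3 ?_
      · rw [eR]
        exact q1
      · rw [tR]
        exact hβ i i
  · intro s t hst
    rw [Set.disjoint_left]
    intro v h1 h2
    have e1 := (Kt_mem hB (hS1 _ (gN _)) h1).1
    have e2 := (Kt_mem hB (hS1 _ (gN _)) h2).1
    exact gne _ _ (fun h => hst (Ginj h)) (seg_subsingleton hS2 (l v) ⟨gN _, e1⟩ ⟨gN _, e2⟩)
  · intro s w hw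
    exact Or.inl ⟨gN _, (Kt_mem hB (hS1 _ (gN _)) hw).2⟩
  · intro i j
    obtain ⟨⟨q1, q2, q3⟩, ⟨q1', q2', q3'⟩, e1, e2, e3, e4, e5, e6⟩ := hww (I i) (J j) (hIJ i j)
    refine ⟨LL (I i) (J j), TT (I i) (J j), ww (I i) (J j), ?_, ?_, e3, ?_, ?_, ?_⟩
    · rw [e1]
      refine Kt_ch ?_ q2' q3' ?_
      · rw [eR]
        exact q1'
      · rw [tR]
        exact hβ i j
    · rw [e2]
      refine Kt_ch ?_ q2 q3 ?_
      · rw [eL]
        exact q1
      · rw [tL]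
        exact hα i j
    · intro t ht hT
      rw [Set.mem_ofPred_eq, eR]
      exact e4 t ht hT
    · intro t ht hT
      rw [Set.mem_ofPred_eq, eL]
      exact e5 t ht hT
    · intro t ht s hs
      have h8 := e6 t ht (g (G s)) hs
      by_contra hcon
      simp only [Set.mem_insert_iff, Set.mem_singleton_iff, not_or] at hcon
      refine gX (I i) (J j) (G s) (hIJ i j) ?_ ?_ h8
      · intro h9
        rw [← eL i] at h9
        exact hcon.1 (Ginj h9)
      · intro h9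
        rw [← eR j] at h9
        exact hcon.2 (Ginj h9)

end Pool.Agent.MP763071.Two
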