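import Pool.Agent.Lib.MP_763071_co.Two.Pot
import Pool.Agent.Lib.MP_763071_co.Two.Hub
import Pool.Agent.Lib.MP_763071_co.KK.All

/-!
# MP_763071_co : bounded dimension from finitely many merged backbones
-/

set_option autoImplicit false

namespace Pool.Agent.MP763071.Two

open Pool.Agent.MP763071.KK
open Pool.Agent.MP763071.KK.MainAux (exists_sat sat_lt const_of_periodic WR_mono WR_le model_drop)

/-- `P` has a realizer by `d` linear extensions -/
def Rz (P : Type) [PartialOrder P] (d : ℕ) : Prop :=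
  ∃ f : Fin d → P → ℕ, (∀ i, Function.Injective (f i)) ∧ ∀ x y : P, x ≤ y ↔ ∀ i, f i x ≤ f i y

theorem sat_short2 {P : Type} [PartialOrder P] {m κ h : ℕ} {ch : ℕ → P} {ty : ℕ → Fin m}
    {l r : P → ℕ} (B : B2 P m κ h ch ty l r) {x y : P} {v L : ℕ}
    {w : ℕ → P} (hw : Sat L w x y) (h1 : l y ≤ v) (h2 : v ≤ r x) : L ≤ κ := by
  have h3 : ∀ t ≤ L, x ≤ w t ∧ w t ≤ y := by
    intro t ht
    constructor
    · rcases Nat.eq_zero_or_pos t with h0 | h0
      · rw [h0, hw.1]
      · rw [← hw.1]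
        exact (sat_lt hw t ht 0 h0).le
    · rcases Nat.eq_or_lt_of_le ht with h0 | h0
      · rw [h0, hw.2.1]
      · rw [← hw.2.1]
        exact (sat_lt hw L le_rfl t h0).le
  have h4 := B.short v (L + 1) w (fun i j hij hj => sat_lt hw j (by omega) i hij) (fun i hi => by
    obtain ⟨h5, h6⟩ := h3 i (by omega)
    exact ⟨(B.l_mono _ _ h6).trans h1, h2.trans (B.r_mono _ _ h5)⟩)
  omega

theorem tStmt : TStmt := tMain triv quot region

theorem wColStmt : WColStmt := wcol (decomp geo)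

theorem core (n m κ D : ℕ) : ∃ d0 : ℕ, ∀ (P : Type) [Fintype P] [PartialOrder P],
    ¬ HasMinor (CG P) n → ∀ cls : P → P → Fin D,
      (∀ s : Fin D, HasB2 P m κ (fun x y => ¬ x ≤ y ∧ cls x y = s)) → Rz P d0 := by
  classical
  obtain ⟨c, hc⟩ := wColStmt n (3 * κ)
  obtain ⟨N, hN⟩ := hub n m κ c
  obtain ⟨M, hM⟩ := tStmt Unit (fun _ => 0) (fun _ => N)
  obtain ⟨T, hT⟩ := potential M
  refine ⟨D * (T * 4 ^ (c + 1)), ?_⟩
  intro P _ _ hmin cls hcls
  obtain ⟨π, hπ, hπc⟩ := hc P (CG P) hmin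
  obtain ⟨col, hcol⟩ := colThm P (WR (CG P) π (3 * κ)) π c hπ (fun v u hvu => WR_le hvu) hπc
  obtain ⟨sig, hsig⟩ := sigThm P κ (c + 1) π col hπ hcol
  have hπc' : ∀ v, {u | WR (CG P) π κ v u}.ncard ≤ c := fun v =>
    (Set.ncard_le_ncard (fun u hu => WR_mono (by omega) hu) (Set.toFinite _)).trans (hπc v)
  have key2 : ∀ s : Fin D, ∃ f : Fin T × (Fin (c + 1) → Fin 4) → P → ℕ,
      (∀ us, Function.Injective (f us)) ∧ (∀ us a b, a ≤ b → f us a ≤ f us b) ∧
      ∀ a b, ¬ a ≤ b → cls a b = s → ∃ us, f us b < f us a := by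
    intro s
    obtain ⟨h, ch, ty, l, r, B, hE⟩ := hcls s
    have hmod : ¬ Model (HA κ π l r) Set.univ 0 N := hN P h ch ty l r π B hπc' hmin
    have hgood : Good (HA κ π l r) Set.univ M := by
      refine hM P (HA κ π l r) Set.univ (fun _ => ()) (h + 2) ?_ ?_
      · rintro z - a (⟨x, -, rfl⟩ | ⟨y, -, rfl⟩)
        · have := B.r_le x
          omega
        · have := B.l_le y
          omega
      · intro j hj
        apply hmod
        have hset : {z : P | z ∈ Set.univ ∧ () = j} = Set.univ := by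
          ext z
          simp
        rw [hset] at hj
        exact model_drop hj
    obtain ⟨θl, θu, hθ1, hθ2, hθ3⟩ := hT P m κ h ch ty l r π B hgood
    have hS : ∀ us : Fin T × (Fin (c + 1) → Fin 4), ∃ f : P → ℕ, Function.Injective f ∧
        (∀ a b, a ≤ b → f a ≤ f b) ∧
        ∀ a b, (¬ a ≤ b ∧ θu us.1 b ≤ θl us.1 a ∧ sig a b = us.2) → f b < f a := by
      rintro ⟨u, s'⟩
      refine linExt P (fun a b => ¬ a ≤ b ∧ θu u b ≤ θl u a ∧ sig a b = s') ?_
      rintro ⟨N', x, y, hN', hper, hS, hxy⟩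
      have hstep : ∀ i, θl u (x i) ≤ θu u (y (i + 1)) := fun i => hθ2 u _ _ (hxy i)
      have hconst := const_of_periodic (fun i => θl u (x i)) N' hN'
        (fun i => (hstep i).trans (hS (i + 1)).2.1) (fun i => by
          show θl u (x (i + N')) = θl u (x i)
          rw [(hper i).1])
      refine hsig ⟨x, y, fun i => (hS i).1, fun i => ?_, fun i j => by
        rw [(hS i).2.2, (hS j).2.2]⟩
      obtain ⟨L, w, hw⟩ := exists_sat (y (i + 1)) (x i) (hxy i)
      refine ⟨L, ?_, w, hw⟩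
      refine sat_short2 B hw (v := θl u (x i)) ?_ (hθ1 u (x i)).2
      have e1 : l (y (i + 1)) ≤ θu u (y (i + 1)) := (hθ1 u (y (i + 1))).1
      have e2 : θu u (y (i + 1)) ≤ θl u (x (i + 1)) := (hS (i + 1)).2.1
      have e3 : θl u (x (i + 1)) = θl u (x i) := hconst (i + 1) i
      omega
    choose f hf1 hf2 hf3 using hS
    refine ⟨f, hf1, hf2, ?_⟩
    intro a b hab hs
    obtain ⟨u, hu⟩ := hθ3 a b hab (hE a b ⟨hab, hs⟩)
    exact ⟨(u, sig a b), hf3 (u, sig a b) a b ⟨hab, hu, rfl⟩⟩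
  choose F hF1 hF2 hF3 using key2
  have hcard : Fintype.card (Fin D × (Fin T × (Fin (c + 1) → Fin 4))) = D * (T * 4 ^ (c + 1)) := by
    simp
  let e := Fintype.equivFinOfCardEq hcard
  refine ⟨fun i => F (e.symm i).1 (e.symm i).2, fun i => hF1 _ _, fun x y =>
    ⟨fun hxy i => hF2 _ _ x y hxy, ?_⟩⟩
  intro hall
  by_contra hxy
  obtain ⟨us, hus⟩ := hF3 (cls x y) x y hxy rfl
  have h10 : F (e.symm (e (cls x y, us))).1 (e.symm (e (cls x y, us))).2 x ≤
    F (e.symm (e (cls x y, us))).1 (e.symm (e (cls x y, us))).2 y := hall (e (cls x y, us))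
  rw [e.symm_apply_apply] at h10
  exact absurd h10 (not_le.2 hus)

end Pool.Agent.MP763071.Two
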