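import Pool.Agent.Lib.MP_763071_co.Two.Ht
import Pool.Agent.Lib.MP_763071_co.Two.Core

/-!
# MP_763071_co : two chains meeting all high intervals
-/

set_option autoImplicit false

namespace Pool.Agent.MP763071.Two

open Pool.Agent.MP763071.KK

theorem rz_of_isEmpty (P : Type) [PartialOrder P] [IsEmpty P] (d : ℕ) : Rz P d :=
  ⟨fun _ p => isEmptyElim p, fun _ p => isEmptyElim p, fun p => isEmptyElim p⟩

theorem twoChains (n d k : ℕ) : ∃ d0 : ℕ, ∀ (P : Type) [Fintype P] [PartialOrder P]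
    (C₁ C₂ : Set P), IsChain (· ≤ ·) C₁ → IsChain (· ≤ ·) C₂ →
    (∀ z : Fin (k + 1) → P, StrictMono z → ∃ w ∈ C₁ ∪ C₂, z 0 ≤ w ∧ w ≤ z (Fin.last k)) →
    ¬ HasS P d → ¬ HasMinor (CG P) n → Rz P d0 := by
  obtain ⟨d0, h0⟩ := core n 2 (2 * k + 1) (d + 3)
  refine ⟨d0, ?_⟩
  intro P _ _ C₁ C₂ h1 h2 hmeet hS hmin
  rcases isEmpty_or_nonempty P with hP | hP
  · exact rz_of_isEmpty P d0
  have hM : Meet P (C₁ ∪ C₂) k := by
    intro w hw
    obtain ⟨v, hv, hv1, hv2⟩ := hmeet (fun i => w i) (by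
      intro i j hij
      exact hw i j hij (by have := j.2; omega))
    exact ⟨v, hv, hv1, by simpa using hv2⟩
  obtain ⟨cls, hcls⟩ := classes h1 h2 d hS
  refine h0 P hmin cls fun s => merge h1 h2 hM _ (fun x y h => h.1) ?_
  intro x y x' y' hxy hxy'
  exact hcls x y x' y' hxy.1 hxy'.1 (hxy.2.trans hxy'.2.symm)

end Pool.Agent.MP763071.Two
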