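import Pool.Agent.Lib.MP_763071_co.KK.Spec

/-!
# MP_763071_co : merged backbones

`B2 P m κ h ch ty l r` : the elements `ch 1, …, ch h` of `P` are numbered along a linear extension;
elements of the same type `ty i : Fin m` form a chain; `l x` is a lower and `r x` an upper position of
`x`; chains in a fibre have at most `κ` elements.
-/

set_option autoImplicit false

namespace Pool.Agent.MP763071.Two

open Pool.Agent.MP763071.KK

/-- a merged backbone -/
structure B2 (P : Type) [PartialOrder P] (m κ h : ℕ) (ch : ℕ → P) (ty : ℕ → Fin m)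
    (l r : P → ℕ) : Prop where
  mono : ∀ i j, 1 ≤ i → i < j → j ≤ h → ty i = ty j → ch i < ch j
  l_le : ∀ x, l x ≤ h
  r_pos : ∀ x, 1 ≤ r x
  r_le : ∀ x, r x ≤ h + 1
  l_mono : ∀ x y, x ≤ y → l x ≤ l y
  r_mono : ∀ x y, x ≤ y → r x ≤ r y
  l_ch : ∀ i, 1 ≤ i → i ≤ h → l (ch i) = i
  r_ch : ∀ i, 1 ≤ i → i ≤ h → r (ch i) = i
  ch_l : ∀ y, 1 ≤ l y → ch (l y) ≤ y
  ch_r : ∀ x, r x ≤ h → x ≤ ch (r x)
  l_le_r : ∀ x, l x ≤ r x
  /-- every chain in the fibre of `v` has at most `κ` elements -/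
  short : ∀ (v L : ℕ) (d : ℕ → P), (∀ i j, i < j → j < L → d i < d j) →
    (∀ i < L, l (d i) ≤ v ∧ v ≤ r (d i)) → L ≤ κ

/-- a merged backbone whose type function separates the pairs of `E` -/
def HasB2 (P : Type) [PartialOrder P] (m κ : ℕ) (E : P → P → Prop) : Prop :=
  ∃ (h : ℕ) (ch : ℕ → P) (ty : ℕ → Fin m) (l r : P → ℕ), B2 P m κ h ch ty l r ∧
    ∀ x y, E x y → l y < r x

end Pool.Agent.MP763071.Two
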