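import Pool.Agent.Lib.MP_763071_co.Two.Merge

/-!
# MP_763071_co : few antichains of pairs
-/

set_option autoImplicit false

namespace Pool.Agent.MP763071.Two

open Pool.Agent.MP763071.KK

/-- `P` contains the standard example `S_d` -/
def HasS (P : Type) [PartialOrder P] (d : ℕ) : Prop :=
  ∃ a b : Fin d → P, (∀ i j, i ≠ j → a i < b j) ∧ ∀ i, ¬ a i ≤ b i

namespace HtAux

/-- a chain with last element `a` at index `n` -/
def Chn {Q : Type} (R : Q → Q → Prop) (n : ℕ) (a : Q) : Prop :=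
  ∃ f : ℕ → Q, f n = a ∧ ∀ i j, i < j → j ≤ n → R (f i) (f j)

theorem chn_zero {Q : Type} (R : Q → Q → Prop) (a : Q) : Chn R 0 a :=
  ⟨fun _ => a, rfl, fun i j hij hj => absurd hij (by omega)⟩

theorem chn_succ {Q : Type} {R : Q → Q → Prop} (htr : ∀ a b c, R a b → R b c → R a c) {n : ℕ}
    {a b : Q} (h : Chn R n a) (hab : R a b) : Chn R (n + 1) b := by
  obtain ⟨f, hf, hR⟩ := h
  refine ⟨fun i => if i ≤ n then f i else b, ?_, ?_⟩
  · show (if n + 1 ≤ n then f (n + 1) else b) = b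
    rw [if_neg (by omega)]
  · intro i j hij hj
    show R (if i ≤ n then f i else b) (if j ≤ n then f j else b)
    rw [if_pos (by omega)]
    rcases Nat.lt_or_ge n j with h | h
    · rw [if_neg (by omega)]
      rcases Nat.lt_or_ge i n with h' | h'
      · have := hR i n h' le_rfl
        rw [hf] at this
        exact htr _ _ _ this hab
      · have : i = n := by omega
        rw [this, hf]
        exact hab
    · rw [if_pos h]
      exact hR i j hij h

theorem height {Q : Type} (R : Q → Q → Prop) (htr : ∀ a b c, R a b → R b c → R a c) (D : ℕ)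
    (hno : ¬ ∃ f : ℕ → Q, ∀ i j, i < j → j < D → R (f i) (f j)) :
    ∃ ht : Q → Fin D, ∀ a b, R a b → ht a < ht b := by
  classical
  have hb : ∀ n a, Chn R n a → n < D := by
    intro n a h
    by_contra hcon
    obtain ⟨f, _, hR⟩ := h
    exact hno ⟨f, fun i j hij hj => hR i j hij (by omega)⟩
  refine ⟨fun a => ⟨Nat.findGreatest (fun n => Chn R n a) D, ?_⟩, ?_⟩
  · exact hb _ a (Nat.findGreatest_spec (P := fun n => Chn R n a) (Nat.zero_le D) (chn_zero R a))
  · intro a b hab
    rw [Fin.lt_def]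
    show Nat.findGreatest (fun n => Chn R n a) D < Nat.findGreatest (fun n => Chn R n b) D
    have h1 : Chn R (Nat.findGreatest (fun n => Chn R n a) D) a :=
      Nat.findGreatest_spec (P := fun n => Chn R n a) (Nat.zero_le D) (chn_zero R a)
    have h2 := chn_succ htr h1 hab
    have h3 := hb _ b h2
    exact Nat.lt_of_succ_le (Nat.le_findGreatest h3.le h2)

end HtAux

theorem prec_trans {P : Type} [PartialOrder P] {C₁ C₂ : Set P} (h1 : IsChain (· ≤ ·) C₁)
    (h2 : IsChain (· ≤ ·) C₂) {p q s : P × P} (hq : ¬ q.1 ≤ q.2) (hpq : Prec C₁ C₂ p q)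
    (hqs : Prec C₁ C₂ q s) : Prec C₁ C₂ p s := by
  obtain ⟨⟨a, ha, a1, a2⟩, b, hb, b1, b2⟩ := hpq
  obtain ⟨⟨a', ha', a1', a2'⟩, b', hb', b1', b2'⟩ := hqs
  refine ⟨?_, ?_⟩
  · rcases h1.total ha ha' with h | h
    · exact ⟨a, ha, a1, h.trans a2'⟩
    · exact absurd (a1'.trans (h.trans a2)) hq
  · rcases h2.total hb hb' with h | h
    · exact absurd (b1.trans (h.trans b2')) hq
    · exact ⟨b', hb', b1', h.trans b2⟩

theorem classes {P : Type} [PartialOrder P] {C₁ C₂ : Set P} (h1 : IsChain (· ≤ ·) C₁)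
    (h2 : IsChain (· ≤ ·) C₂) (d : ℕ) (hS : ¬ HasS P d) :
    ∃ cls : P → P → Fin (d + 3), ∀ x y x' y', ¬ x ≤ y → ¬ x' ≤ y' → cls x y = cls x' y' →
      ¬ Prec C₁ C₂ (x', y') (x, y) := by
  classical
  obtain ⟨ht, hht⟩ := HtAux.height (Q := {p : P × P // ¬ p.1 ≤ p.2})
    (fun p q => Prec C₁ C₂ p.1 q.1) (fun p q s hpq hqs => prec_trans h1 h2 q.2 hpq hqs) (d + 3)
    (by
      rintro ⟨f, hf⟩
      apply hS
      have hle : ∀ i j, i < d + 3 → j < d + 3 → i ≠ j → (f i).1.1 ≤ (f j).1.2 := by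
        intro i j hi hj hij
        rcases lt_or_gt_of_ne hij with h | h
        · obtain ⟨⟨c, _, c1, c2⟩, _⟩ := hf i j h hj
          exact c1.trans c2
        · obtain ⟨_, c, _, c1, c2⟩ := hf j i h hi
          exact c1.trans c2
      refine ⟨fun i => (f i).1.1, fun i => (f i).1.2, ?_, fun i => (f i).2⟩
      intro i j hij
      have hi := i.2
      have hj := j.2
      have hij' : (i : ℕ) ≠ (j : ℕ) := fun h => hij (Fin.ext h)
      refine lt_of_le_of_ne (hle i j (by omega) (by omega) hij') ?_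
      intro heq
      have e1 := hle d j (by omega) (by omega) (by omega)
      have e2 := hle i d (by omega) (by omega) (by omega)
      have heq' : (f i).1.1 = (f j).1.2 := heq
      apply (f d).2
      rw [← heq'] at e1
      exact e1.trans e2)
  refine ⟨fun x y => if h : x ≤ y then ⟨0, by omega⟩ else ht ⟨(x, y), h⟩, ?_⟩
  intro x y x' y' hxy hxy' heq hprec
  have heq' : (if h : x ≤ y then (⟨0, by omega⟩ : Fin (d + 3)) else ht ⟨(x, y), h⟩) =
      if h : x' ≤ y' then (⟨0, by omega⟩ : Fin (d + 3)) else ht ⟨(x', y'), h⟩ := heq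
  rw [dif_neg hxy, dif_neg hxy'] at heq'
  have := hht ⟨(x', y'), hxy'⟩ ⟨(x, y), hxy⟩ hprec
  rw [heq'] at this
  exact absurd this (lt_irrefl _)

end Pool.Agent.MP763071.Two
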