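import Pool.Agent.Lib.MP_763071_co.Two.Defs

/-!
# MP_763071_co : a merged backbone from a linear order on `W`
-/

set_option autoImplicit false
set_option linter.unusedSectionVars false

namespace Pool.Agent.MP763071.Two

open Pool.Agent.MP763071.KK

/-- a linear order `Bef` on `W` extending the order of `P` -/
structure LinOn {P : Type} [PartialOrder P] (W : Set P) (Bef : P → P → Prop) : Prop where
  ext : ∀ u ∈ W, ∀ v ∈ W, u ≤ v → Bef u v
  tot : ∀ u ∈ W, ∀ v ∈ W, Bef u v ∨ Bef v u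
  anti : ∀ u ∈ W, ∀ v ∈ W, Bef u v → Bef v u → u = v
  trans : ∀ u ∈ W, ∀ v ∈ W, ∀ w ∈ W, Bef u v → Bef v w → Bef u w

/-- every increasing sequence `d 0 < … < d k` has an element of `W` between its ends -/
def Meet (P : Type) [PartialOrder P] (W : Set P) (k : ℕ) : Prop :=
  ∀ d : ℕ → P, (∀ i j, i < j → j ≤ k → d i < d j) → ∃ w ∈ W, d 0 ≤ w ∧ w ≤ d k

namespace LineAux

variable {P : Type} [Fintype P] [PartialOrder P]

open Classical in
/-- the position of `w` -/
noncomputable def rk (W : Set P) (Bef : P → P → Prop) (w : P) : ℕ :=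
  (Finset.univ.filter (fun u => u ∈ W ∧ Bef u w)).card

variable {W : Set P} {Bef : P → P → Prop}

theorem rk_mono (hL : LinOn W Bef) {u v : P} (hu : u ∈ W) (hv : v ∈ W) (h : Bef u v) :
    rk W Bef u ≤ rk W Bef v := by
  classical
  apply Finset.card_le_card
  intro x hx
  simp only [Finset.mem_filter, Finset.mem_univ, true_and] at hx ⊢
  exact ⟨hx.1, hL.trans x hx.1 u hu v hv hx.2 h⟩

theorem rk_lt (hL : LinOn W Bef) {u v : P} (hu : u ∈ W) (hv : v ∈ W) (h : Bef u v)
    (hne : u ≠ v) : rk W Bef u < rk W Bef v := by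
  classical
  apply Finset.card_lt_card
  rw [Finset.ssubset_iff_of_subset]
  · refine ⟨v, ?_, ?_⟩
    · simp only [Finset.mem_filter, Finset.mem_univ, true_and]
      exact ⟨hv, hL.ext v hv v hv le_rfl⟩
    · simp only [Finset.mem_filter, Finset.mem_univ, true_and, not_and]
      intro _ h2
      exact hne (hL.anti u hu v hv h h2)
  · intro x hx
    simp only [Finset.mem_filter, Finset.mem_univ, true_and] at hx ⊢
    exact ⟨hx.1, hL.trans x hx.1 u hu v hv hx.2 h⟩

theorem rk_inj (hL : LinOn W Bef) {u v : P} (hu : u ∈ W) (hv : v ∈ W)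
    (h : rk W Bef u = rk W Bef v) : u = v := by
  by_contra hne
  rcases hL.tot u hu v hv with h1 | h1
  · exact absurd h (rk_lt hL hu hv h1 hne).ne
  · exact absurd h.symm (rk_lt hL hv hu h1 (Ne.symm hne)).ne

theorem rk_le_iff (hL : LinOn W Bef) {u v : P} (hu : u ∈ W) (hv : v ∈ W) :
    rk W Bef u ≤ rk W Bef v ↔ Bef u v := by
  constructor
  · intro h
    rcases hL.tot u hu v hv with h1 | h1
    · exact h1
    · have h2 : u = v := rk_inj hL hu hv (le_antisymm h (rk_mono hL hv hu h1))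
      rw [h2]
      exact hL.ext v hv v hv le_rfl
  · exact rk_mono hL hu hv

open Classical in
/-- the number of elements of `W` -/
noncomputable def hh (W : Set P) : ℕ := (Finset.univ.filter (fun u => u ∈ W)).card

theorem rk_pos (hL : LinOn W Bef) {u : P} (hu : u ∈ W) : 1 ≤ rk W Bef u := by
  classical
  apply Finset.card_pos.mpr
  exact ⟨u, by simp only [Finset.mem_filter, Finset.mem_univ, true_and]; exact ⟨hu, hL.ext u hu u hu le_rfl⟩⟩

theorem rk_le (u : P) : rk W Bef u ≤ hh W := by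
  classical
  apply Finset.card_le_card
  intro x hx
  simp only [Finset.mem_filter, Finset.mem_univ, true_and] at hx ⊢
  exact hx.1

theorem rk_surj (hL : LinOn W Bef) {i : ℕ} (hi : 1 ≤ i) (hih : i ≤ hh W) :
    ∃ w ∈ W, rk W Bef w = i := by
  classical
  have himg : ((Finset.univ.filter (fun u => u ∈ W)).image (rk W Bef)) = Finset.Icc 1 (hh W) := by
    apply Finset.eq_of_subset_of_card_le
    · intro x hx
      rw [Finset.mem_image] at hx
      obtain ⟨u, hu, rfl⟩ := hx
      simp only [Finset.mem_filter, Finset.mem_univ, true_and] at hu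
      rw [Finset.mem_Icc]
      exact ⟨rk_pos hL hu, rk_le u⟩
    · rw [Finset.card_image_of_injOn, Nat.card_Icc]
      · simp only [Nat.add_sub_cancel]
        exact le_rfl
      · intro u hu v hv huv
        simp only [Finset.coe_filter, Finset.mem_univ, true_and, Set.mem_ofPred_eq] at hu hv
        exact rk_inj hL hu hv huv
  have hmem : i ∈ Finset.Icc 1 (hh W) := Finset.mem_Icc.mpr ⟨hi, hih⟩
  rw [← himg, Finset.mem_image] at hmem
  obtain ⟨u, hu, hui⟩ := hmem
  simp only [Finset.mem_filter, Finset.mem_univ, true_and] at hu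
  exact ⟨u, hu, hui⟩

open Classical in
/-- lower position -/
noncomputable def lo (W : Set P) (Bef : P → P → Prop) (x : P) : ℕ :=
  (Finset.univ.filter (fun w => w ∈ W ∧ w ≤ x)).sup (rk W Bef)

open Classical in
/-- upper position -/
noncomputable def up (W : Set P) (Bef : P → P → Prop) (x : P) : ℕ :=
  (insert (hh W + 1) ((Finset.univ.filter (fun w => w ∈ W ∧ x ≤ w)).image (rk W Bef))).min'
    (Finset.insert_nonempty _ _)

theorem le_lo {w x : P} (hw : w ∈ W) (h : w ≤ x) : rk W Bef w ≤ lo W Bef x := by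
  classical
  exact Finset.le_sup (f := rk W Bef)
    (by simp only [Finset.mem_filter, Finset.mem_univ, true_and]; exact ⟨hw, h⟩)

theorem up_le {w x : P} (hw : w ∈ W) (h : x ≤ w) : up W Bef x ≤ rk W Bef w := by
  classical
  refine Finset.min'_le _ _ (Finset.mem_insert_of_mem (Finset.mem_image_of_mem _ ?_))
  simp only [Finset.mem_filter, Finset.mem_univ, true_and]
  exact ⟨hw, h⟩

theorem lo_le {x : P} {t : ℕ} (h : ∀ w ∈ W, w ≤ x → rk W Bef w ≤ t) : lo W Bef x ≤ t := by
  classical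
  apply Finset.sup_le
  intro w hw
  simp only [Finset.mem_filter, Finset.mem_univ, true_and] at hw
  exact h w hw.1 hw.2

theorem le_up {x : P} {t : ℕ} (h1 : t ≤ hh W + 1) (h : ∀ w ∈ W, x ≤ w → t ≤ rk W Bef w) :
    t ≤ up W Bef x := by
  classical
  refine Finset.le_min' _ _ _ fun v hv => ?_
  rcases Finset.mem_insert.1 hv with h3 | h3
  · rw [h3]
    exact h1
  · obtain ⟨w, hw, rfl⟩ := Finset.mem_image.1 h3
    simp only [Finset.mem_filter, Finset.mem_univ, true_and] at hw
    exact h w hw.1 hw.2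

/-- the lower position is attained -/
theorem lo_mem {x : P} (h : 1 ≤ lo W Bef x) : ∃ w ∈ W, w ≤ x ∧ rk W Bef w = lo W Bef x := by
  classical
  have hne : (Finset.univ.filter (fun w => w ∈ W ∧ w ≤ x)).Nonempty := by
    by_contra hcon
    rw [Finset.not_nonempty_iff_eq_empty] at hcon
    unfold lo at h
    rw [hcon] at h
    simp at h
  obtain ⟨w, hw, hw2⟩ := Finset.exists_mem_eq_sup _ hne (rk W Bef)
  simp only [Finset.mem_filter, Finset.mem_univ, true_and] at hw
  exact ⟨w, hw.1, hw.2, hw2.symm⟩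

/-- the upper position is attained -/
theorem up_mem {x : P} (h : up W Bef x ≤ hh W) : ∃ w ∈ W, x ≤ w ∧ rk W Bef w = up W Bef x := by
  classical
  have h1 := Finset.min'_mem (insert (hh W + 1)
    ((Finset.univ.filter (fun w => w ∈ W ∧ x ≤ w)).image (rk W Bef))) (Finset.insert_nonempty _ _)
  rcases Finset.mem_insert.1 h1 with h3 | h3
  · exfalso
    have : up W Bef x = hh W + 1 := h3
    omega
  · obtain ⟨w, hw, hw2⟩ := Finset.mem_image.1 h3
    simp only [Finset.mem_filter, Finset.mem_univ, true_and] at hw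
    exact ⟨w, hw.1, hw.2, hw2⟩

end LineAux

open LineAux in
theorem line {P : Type} [Fintype P] [PartialOrder P] [Nonempty P] {m k : ℕ} {W : Set P} {tp : P → Fin m}
    {Bef : P → P → Prop} (hch : ∀ u ∈ W, ∀ v ∈ W, tp u = tp v → u ≤ v ∨ v ≤ u)
    (hmeet : Meet P W k) (hL : LinOn W Bef) (E : P → P → Prop)
    (hE : ∀ x y, E x y → ∀ w ∈ W, ∀ w' ∈ W, w ≤ y → x ≤ w' → ¬ Bef w' w) :
    HasB2 P m (2 * k + 1) E := by
  classical
  obtain ⟨p0⟩ : Nonempty P := inferInstance
  have hchoose : ∀ i : ℕ, ∃ w : P, 1 ≤ i → i ≤ hh W → w ∈ W ∧ rk W Bef w = i := by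
    intro i
    by_cases h : 1 ≤ i ∧ i ≤ hh W
    · obtain ⟨w, hw, hwi⟩ := rk_surj hL h.1 h.2
      exact ⟨w, fun _ _ => ⟨hw, hwi⟩⟩
    · exact ⟨p0, fun h1 h2 => absurd ⟨h1, h2⟩ h⟩
  choose ch hchW using hchoose
  have hch_of : ∀ w ∈ W, ch (rk W Bef w) = w := by
    intro w hw
    obtain ⟨h1, h2⟩ := hchW (rk W Bef w) (rk_pos hL hw) (rk_le w)
    exact rk_inj hL h1 hw h2
  have hlr : ∀ x, lo W Bef x ≤ up W Bef x := by
    intro x
    apply lo_le
    intro w hw hwx
    apply le_up ((rk_le w).trans (Nat.le_succ _))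
    intro w' hw' hxw'
    exact rk_mono hL hw hw' (hL.ext w hw w' hw' (hwx.trans hxw'))
  refine ⟨hh W, ch, fun i => tp (ch i), lo W Bef, up W Bef, ⟨?_, ?_, ?_, ?_, ?_, ?_, ?_, ?_, ?_, ?_,
    hlr, ?_⟩, ?_⟩
  · intro i j hi hij hj hty
    obtain ⟨h1, h2⟩ := hchW i hi (by omega)
    obtain ⟨h3, h4⟩ := hchW j (by omega) hj
    rcases hch (ch i) h1 (ch j) h3 hty with h | h
    · refine lt_of_le_of_ne h ?_
      intro heq
      rw [heq, h4] at h2
      omega
    · exfalso
      have := rk_mono hL h3 h1 (hL.ext _ h3 _ h1 h)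
      rw [h2, h4] at this
      omega
  · intro x
    exact lo_le fun w _ _ => rk_le w
  · intro x
    exact le_up (Nat.succ_le_succ (Nat.zero_le _)) fun w hw _ => rk_pos hL hw
  · intro x
    exact Finset.min'_le _ _ (Finset.mem_insert_self _ _)
  · intro x y hxy
    exact lo_le fun w hw hwx => le_lo hw (hwx.trans hxy)
  · intro x y hxy
    refine le_up (Finset.min'_le _ _ (Finset.mem_insert_self _ _)) fun w hw hyw =>
      up_le hw (hxy.trans hyw)
  · intro i hi hih
    obtain ⟨h1, h2⟩ := hchW i hi hih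
    have h3 : rk W Bef (ch i) ≤ lo W Bef (ch i) := le_lo h1 le_rfl
    have h4 : up W Bef (ch i) ≤ rk W Bef (ch i) := up_le h1 le_rfl
    have h5 := hlr (ch i)
    omega
  · intro i hi hih
    obtain ⟨h1, h2⟩ := hchW i hi hih
    have h3 : rk W Bef (ch i) ≤ lo W Bef (ch i) := le_lo h1 le_rfl
    have h4 : up W Bef (ch i) ≤ rk W Bef (ch i) := up_le h1 le_rfl
    have h5 := hlr (ch i)
    omega
  · intro y hy
    obtain ⟨w, hw, hwy, hwr⟩ := lo_mem hy
    rw [← hwr, hch_of w hw]
    exact hwy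
  · intro x hx
    obtain ⟨w, hw, hwx, hwr⟩ := up_mem hx
    rw [← hwr, hch_of w hw]
    exact hwx
  · intro v L d hd hf
    by_contra hcon
    push Not at hcon
    have key : ∀ s, s + k < L → ∃ w ∈ W, d s ≤ w ∧ w ≤ d (s + k) ∧ rk W Bef w = v := by
      intro s hs
      obtain ⟨w, hw, h1, h2⟩ := hmeet (fun i => d (s + i)) (fun i j hij hj =>
        hd (s + i) (s + j) (by omega) (by omega))
      refine ⟨w, hw, h1, h2, ?_⟩
      have h3 := (hf (s + k) hs).1
      have h4 := (hf s (by omega)).2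
      have h5 : rk W Bef w ≤ lo W Bef (d (s + k)) := le_lo hw h2
      have h6 : up W Bef (d s) ≤ rk W Bef w := up_le hw h1
      omega
    obtain ⟨w, hw, h1, h2, h3⟩ := key 0 (by omega)
    obtain ⟨w', hw', h1', h2', h3'⟩ := key (k + 1) (by omega)
    have heq : w = w' := rk_inj hL hw hw' (h3.trans h3'.symm)
    have h4 : d (0 + k) < d (k + 1) := hd (0 + k) (k + 1) (by omega) (by omega)
    rw [← heq] at h1'
    exact absurd (h1'.trans h2) h4.not_ge
  · intro x y hxy
    by_contra hcon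
    push Not at hcon
    have hy1 : 1 ≤ lo W Bef y := (le_up (x := x) (W := W) (Bef := Bef) (t := 1)
      (Nat.succ_le_succ (Nat.zero_le _)) fun w hw _ => rk_pos hL hw).trans hcon
    have hly : lo W Bef y ≤ hh W := lo_le fun w _ _ => rk_le w
    obtain ⟨w, hw, hwy, hwr⟩ := lo_mem hy1
    obtain ⟨w', hw', hwx', hwr'⟩ := up_mem (hcon.trans hly)
    apply hE x y hxy w hw w' hw' hwy hwx'
    rw [← rk_le_iff hL hw' hw, hwr, hwr']
    exact hcon

end Pool.Agent.MP763071.Two
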