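import Pool.Agent.Lib.MP_763071_co.Two.Line

/-!
# MP_763071_co : merging two chains along an antichain of pairs

A pair `(x, y)` with `¬ x ≤ y`.  `Prec (x', y') (x, y)` : `x' ≤ c ≤ y` for some `c ∈ C₁` and
`x ≤ c' ≤ y'` for some `c' ∈ C₂`.
-/

set_option autoImplicit false

namespace Pool.Agent.MP763071.Two

open Pool.Agent.MP763071.KK

/-- the relation of two pairs -/
def Prec {P : Type} [PartialOrder P] (C₁ C₂ : Set P) (p q : P × P) : Prop :=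
  (∃ c ∈ C₁, p.1 ≤ c ∧ c ≤ q.2) ∧ ∃ c ∈ C₂, q.1 ≤ c ∧ c ≤ p.2

namespace MergeAux

variable {P : Type} [PartialOrder P]

/-- the elements of `C₂` before `c` -/
def D (C₂ : Set P) (E : P → P → Prop) (c : P) : Set P :=
  {c' | c' ∈ C₂ ∧ (c' ≤ c ∨ ∃ x y, E x y ∧ c' ≤ y ∧ x ≤ c)}

/-- the merged order: `u` is not after `v` -/
def Bf (C₁ C₂ : Set P) (E : P → P → Prop) (u v : P) : Prop :=
  (u ∈ C₁ ∧ v ∈ C₁ ∧ u ≤ v) ∨ (u ∉ C₁ ∧ v ∉ C₁ ∧ u ≤ v) ∨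
    (u ∉ C₁ ∧ v ∈ C₁ ∧ u ∈ D C₂ E v) ∨ (u ∈ C₁ ∧ v ∉ C₁ ∧ v ∉ D C₂ E u)

variable {C₁ C₂ : Set P} {E : P → P → Prop}

theorem D_down {c u v : P} (hu : u ∈ C₂) (huv : u ≤ v) (hv : v ∈ D C₂ E c) : u ∈ D C₂ E c := by
  obtain ⟨_, h | ⟨x, y, hxy, h1, h2⟩⟩ := hv
  · exact ⟨hu, Or.inl (huv.trans h)⟩
  · exact ⟨hu, Or.inr ⟨x, y, hxy, huv.trans h1, h2⟩⟩

theorem D_mono {c c' u : P} (hcc : c ≤ c') (hu : u ∈ D C₂ E c) : u ∈ D C₂ E c' := by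
  obtain ⟨h0, h | ⟨x, y, hxy, h1, h2⟩⟩ := hu
  · exact ⟨h0, Or.inl (h.trans hcc)⟩
  · exact ⟨h0, Or.inr ⟨x, y, hxy, h1, h2.trans hcc⟩⟩

theorem linOn (h1 : IsChain (· ≤ ·) C₁) (h2 : IsChain (· ≤ ·) C₂)
    (hE : ∀ x y, E x y → ¬ x ≤ y) : LinOn (C₁ ∪ C₂) (Bf C₁ C₂ E) := by
  have t1 : ∀ u ∈ C₁, ∀ v ∈ C₁, u ≤ v ∨ v ≤ u := fun u hu v hv => h1.total hu hv
  have t2 : ∀ u ∈ C₂, ∀ v ∈ C₂, u ≤ v ∨ v ≤ u := fun u hu v hv => h2.total hu hv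
  have mem2 : ∀ u ∈ C₁ ∪ C₂, u ∉ C₁ → u ∈ C₂ := fun u hu hn => hu.resolve_left hn
  constructor
  · intro u hu v hv huv
    by_cases a : u ∈ C₁ <;> by_cases b : v ∈ C₁
    · exact Or.inl ⟨a, b, huv⟩
    · refine Or.inr (Or.inr (Or.inr ⟨a, b, ?_⟩))
      rintro ⟨_, h | ⟨x, y, hxy, h3, h4⟩⟩
      · have : u = v := le_antisymm huv h
        rw [this] at a
        exact b a
      · exact hE x y hxy (h4.trans (huv.trans h3))
    · exact Or.inr (Or.inr (Or.inl ⟨a, b, mem2 u hu a, Or.inl huv⟩))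
    · exact Or.inr (Or.inl ⟨a, b, huv⟩)
  · intro u hu v hv
    by_cases a : u ∈ C₁ <;> by_cases b : v ∈ C₁
    · rcases t1 u a v b with h | h
      · exact Or.inl (Or.inl ⟨a, b, h⟩)
      · exact Or.inr (Or.inl ⟨b, a, h⟩)
    · by_cases h : v ∈ D C₂ E u
      · exact Or.inr (Or.inr (Or.inr (Or.inl ⟨b, a, h⟩)))
      · exact Or.inl (Or.inr (Or.inr (Or.inr ⟨a, b, h⟩)))
    · by_cases h : u ∈ D C₂ E v
      · exact Or.inl (Or.inr (Or.inr (Or.inl ⟨a, b, h⟩)))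
      · exact Or.inr (Or.inr (Or.inr (Or.inr ⟨b, a, h⟩)))
    · rcases t2 u (mem2 u hu a) v (mem2 v hv b) with h | h
      · exact Or.inl (Or.inr (Or.inl ⟨a, b, h⟩))
      · exact Or.inr (Or.inr (Or.inl ⟨b, a, h⟩))
  · intro u hu v hv huv hvu
    rcases huv with ⟨a, b, h⟩ | ⟨a, b, h⟩ | ⟨a, b, h⟩ | ⟨a, b, h⟩ <;>
      rcases hvu with ⟨a', b', h'⟩ | ⟨a', b', h'⟩ | ⟨a', b', h'⟩ | ⟨a', b', h'⟩ <;>
      first
        | exact le_antisymm h h'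
        | exact absurd a b'
        | exact absurd b a'
        | exact absurd b' a
        | exact absurd a' b
        | exact absurd h h'
        | exact absurd h' h
  · intro u hu v hv w hw huv hvw
    rcases huv with ⟨a, b, h⟩ | ⟨a, b, h⟩ | ⟨a, b, h⟩ | ⟨a, b, h⟩ <;>
      rcases hvw with ⟨a', b', h'⟩ | ⟨a', b', h'⟩ | ⟨a', b', h'⟩ | ⟨a', b', h'⟩
    · exact Or.inl ⟨a, b', h.trans h'⟩
    · exact absurd b a'
    · exact absurd b a'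
    · exact Or.inr (Or.inr (Or.inr ⟨a, b', fun hd => h' (D_mono h hd)⟩))
    · exact absurd a' b
    · exact Or.inr (Or.inl ⟨a, b', h.trans h'⟩)
    · exact Or.inr (Or.inr (Or.inl ⟨a, b', D_down (mem2 u hu a) h h'⟩))
    · exact absurd a' b
    · exact Or.inr (Or.inr (Or.inl ⟨a, b', D_mono h' h⟩))
    · exact absurd b a'
    · exact absurd b a'
    · -- `u ∈ D v`, `w ∉ D v`
      refine Or.inr (Or.inl ⟨a, b', ?_⟩)
      rcases t2 u (mem2 u hu a) w (mem2 w hw b') with h3 | h3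
      · exact h3
      · exact absurd (D_down (mem2 w hw b') h3 h) h'
    · exact absurd a' b
    · exact Or.inr (Or.inr (Or.inr ⟨a, b', fun hd => h (D_down (mem2 v hv b) h' hd)⟩))
    · -- `v ∉ D u`, `v ∈ D w`
      refine Or.inl ⟨a, b', ?_⟩
      rcases t1 u a w b' with h3 | h3
      · exact h3
      · exact absurd (D_mono h3 h') h
    · exact absurd a' b

end MergeAux

open MergeAux in
/-- MERGING -/
theorem merge {P : Type} [Fintype P] [PartialOrder P] [Nonempty P] {k : ℕ} {C₁ C₂ : Set P}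
    (h1 : IsChain (· ≤ ·) C₁) (h2 : IsChain (· ≤ ·) C₂) (hmeet : Meet P (C₁ ∪ C₂) k)
    (E : P → P → Prop) (hE : ∀ x y, E x y → ¬ x ≤ y)
    (hanti : ∀ x y x' y', E x y → E x' y' → ¬ Prec C₁ C₂ (x', y') (x, y)) :
    HasB2 P 2 (2 * k + 1) E := by
  classical
  have t1 : ∀ u ∈ C₁, ∀ v ∈ C₁, u ≤ v ∨ v ≤ u := fun u hu v hv => h1.total hu hv
  have t2 : ∀ u ∈ C₂, ∀ v ∈ C₂, u ≤ v ∨ v ≤ u := fun u hu v hv => h2.total hu hv
  have mem2 : ∀ u ∈ C₁ ∪ C₂, u ∉ C₁ → u ∈ C₂ := fun u hu hn => hu.resolve_left hn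
  refine line (tp := fun w => if w ∈ C₁ then (0 : Fin 2) else 1) ?_ hmeet (linOn h1 h2 hE) E ?_
  · intro u hu v hv huv
    by_cases a : u ∈ C₁ <;> by_cases b : v ∈ C₁
    · exact t1 u a v b
    · simp only [a, b, if_true, if_false] at huv
      exact absurd huv (by decide)
    · simp only [a, b, if_true, if_false] at huv
      exact absurd huv (by decide)
    · exact t2 u (mem2 u hu a) v (mem2 v hv b)
  · intro x y hxy w hw w' hw' hwy hxw' hbef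
    have hn := hE x y hxy
    rcases hbef with ⟨a, b, h⟩ | ⟨a, b, h⟩ | ⟨a, b, h⟩ | ⟨a, b, h⟩
    · exact hn (hxw'.trans (h.trans hwy))
    · exact hn (hxw'.trans (h.trans hwy))
    · -- `w' ∈ D w`, `w ∈ C₁`
      obtain ⟨_, h3 | ⟨x', y', hxy', h3, h4⟩⟩ := h
      · exact hn (hxw'.trans (h3.trans hwy))
      · exact hanti x y x' y' hxy hxy' ⟨⟨w, b, h4, hwy⟩, ⟨w', mem2 w' hw' a, hxw', h3⟩⟩
    · -- `w ∉ D w'`, `w' ∈ C₁`, `w ∉ C₁`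
      exact h ⟨mem2 w hw b, Or.inr ⟨x, y, hxy, hwy, hxw'⟩⟩

end Pool.Agent.MP763071.Two
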