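import Pool.Agent.Lib.MP_763071_co.Two.Defs
import Pool.Agent.Lib.MP_763071_co.KK.HubPath

/-!
# MP_763071_co : paths from a merged backbone to a hub
-/

set_option autoImplicit false

namespace Pool.Agent.MP763071.Two

open Pool.Agent.MP763071.KK
open Pool.Agent.MP763071.KK.HubPathAux

theorem path {P : Type} [Fintype P] [PartialOrder P] {m κ h : ℕ} {ch : ℕ → P} {ty : ℕ → Fin m}
    {l r π : P → ℕ} (hB : B2 P m κ h ch ty l r) {z : P} {a : ℕ} (ha : a ∈ HA κ π l r z)
    (h1a : 1 ≤ a) (hah : a ≤ h) :
    ∃ (L T : ℕ) (w : ℕ → P), T ≤ L ∧ L ≤ 2 * κ ∧ w 0 = ch a ∧ w L = z ∧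
        (∀ t < L, (CG P).Adj (w t) (w (t + 1))) ∧
        (∀ t ≤ T, r (w t) = a ∨ l (w t) = a) ∧ ∀ t ≤ L, T ≤ t → WR (CG P) π κ (w t) z := by
  rcases ha with ⟨x, ⟨L2, hL2, u, hu, hup⟩, hax⟩ | ⟨y, ⟨L2, hL2, u, hu, hup⟩, hay⟩
  · have hxa : x ≤ ch a := by
      have := hB.ch_r x (by rw [← hax]; exact hah)
      rwa [← hax] at this
    obtain ⟨L1, v, hv⟩ := exists_sat hxa
    have hr : ∀ t ≤ L1, r (v t) = a := by
      intro t ht
      have e1 : r x ≤ r (v t) := by
        have := sat_le hv 0 t (by omega) ht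
        rw [hv.1] at this
        exact hB.r_mono _ _ this
      have e2 : r (v t) ≤ r (ch a) := by
        have := sat_le hv t L1 ht le_rfl
        rw [hv.2.1] at this
        exact hB.r_mono _ _ this
      rw [hB.r_ch a h1a hah] at e2
      omega
    have hs : L1 + 1 ≤ κ := by
      refine hB.short a (L1 + 1) v ?_ ?_
      · intro i j hij hj
        exact sat_lt hv i j hij (by omega)
      · intro i hi
        have e1 := hr i (by omega)
        have e2 := hB.l_le_r (v i)
        omega
    refine glue L1 L2 (fun t => v (L1 - t)) u ?_ ?_ hu.2.1 ?_ ?_ ?_ hup (by omega) hL2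
    · change v (L1 - 0) = ch a
      rw [Nat.sub_zero, hv.2.1]
    · change v (L1 - L1) = u 0
      rw [Nat.sub_self, hv.1, hu.1]
    · intro t ht
      have : L1 - t = L1 - (t + 1) + 1 := by omega
      change (CG P).Adj (v (L1 - t)) (v (L1 - (t + 1)))
      rw [this]
      exact (adj_of_covBy (hv.2.2 _ (by omega))).symm
    · intro t ht
      exact adj_of_covBy (hu.2.2 t ht)
    · intro t ht
      exact Or.inl (hr _ (by omega))
  · have hya : ch a ≤ y := by
      have := hB.ch_l y (by rw [← hay]; exact h1a)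
      rwa [← hay] at this
    obtain ⟨L1, v, hv⟩ := exists_sat hya
    have hr : ∀ t ≤ L1, l (v t) = a := by
      intro t ht
      have e1 : l (ch a) ≤ l (v t) := by
        have := sat_le hv 0 t (by omega) ht
        rw [hv.1] at this
        exact hB.l_mono _ _ this
      have e2 : l (v t) ≤ l y := by
        have := sat_le hv t L1 ht le_rfl
        rw [hv.2.1] at this
        exact hB.l_mono _ _ this
      rw [hB.l_ch a h1a hah] at e1
      omega
    have hs : L1 + 1 ≤ κ := by
      refine hB.short a (L1 + 1) v ?_ ?_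
      · intro i j hij hj
        exact sat_lt hv i j hij (by omega)
      · intro i hi
        have e1 := hr i (by omega)
        have e2 := hB.l_le_r (v i)
        omega
    refine glue L1 L2 v (fun t => u (L2 - t)) hv.1 ?_ ?_ ?_ ?_ ?_ ?_ (by omega) hL2
    · change v L1 = u (L2 - 0)
      rw [Nat.sub_zero, hv.2.1, hu.2.1]
    · change u (L2 - L2) = z
      rw [Nat.sub_self, hu.1]
    · intro t ht
      exact adj_of_covBy (hv.2.2 t ht)
    · intro t ht
      have : L2 - t = L2 - (t + 1) + 1 := by omega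
      change (CG P).Adj (u (L2 - t)) (u (L2 - (t + 1)))
      rw [this]
      exact (adj_of_covBy (hu.2.2 _ (by omega))).symm
    · intro t ht
      exact Or.inr (hr _ ht)
    · intro t ht
      exact hup _ (by omega)

end Pool.Agent.MP763071.Two
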