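import Pool.Agent.Lib.MP_763071_co.Two.Defs
import Pool.Agent.Lib.MP_763071_co.KK.Potential

/-!
# MP_763071_co : potentials of a merged backbone
-/

set_option autoImplicit false

namespace Pool.Agent.MP763071.Two

open Pool.Agent.MP763071.KK
open Pool.Agent.MP763071.KK.PotentialAux

/-- Comparable elements whose fibres meet are joined through a hub. -/
theorem hub_of_le {P : Type} [Fintype P] [PartialOrder P] {m κ h : ℕ} {ch : ℕ → P}
    {ty : ℕ → Fin m} {l r π : P → ℕ} (hB : B2 P m κ h ch ty l r) {x y : P} (hxy : x ≤ y)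
    (hlr : l y ≤ r x) : ∃ z, Up π κ x z ∧ Dn π κ y z := by
  obtain ⟨L, w, hw⟩ := exists_sat y x hxy
  have hL : L + 1 ≤ κ := by
    refine hB.short (l y) (L + 1) w (fun i j hij hj => sat_lt hw hij (by omega)) ?_
    intro i hi
    have h1 : w i ≤ y := by
      have := sat_le hw (show i ≤ L by omega) le_rfl
      rwa [hw.2.1] at this
    have h2 : x ≤ w i := by
      have := sat_le hw (Nat.zero_le i) (show i ≤ L by omega)
      rwa [hw.1] at this
    exact ⟨hB.l_mono _ _ h1, hlr.trans (hB.r_mono _ _ h2)⟩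
  exact exists_hub hw (by omega)

theorem potential (M : ℕ) : ∃ T : ℕ, ∀ (P : Type) [Fintype P] [PartialOrder P] (m κ h : ℕ)
    (ch : ℕ → P) (ty : ℕ → Fin m) (l r π : P → ℕ), B2 P m κ h ch ty l r →
    Good (HA κ π l r) Set.univ M →
      ∃ θl θu : Fin T → P → ℕ, (∀ u x, l x ≤ θu u x ∧ θl u x ≤ r x) ∧
        (∀ u x y, x ≤ y → θl u x ≤ θu u y) ∧
        ∀ x y, ¬ x ≤ y → l y < r x → ∃ u, θu u y ≤ θl u x := by
  refine ⟨Nat.card (Set (Set (Fin M))), ?_⟩
  intro P _ _ m κ h ch ty l r π hB hgood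
  obtain ⟨τ, φ, hτ, hsep⟩ := hgood
  obtain ⟨e⟩ : Nonempty (Fin (Nat.card (Set (Set (Fin M)))) ≃ Set (Set (Fin M))) :=
    ⟨(Finite.equivFin _).symm⟩
  refine ⟨fun u => tl κ h r π φ (e u), fun u => tu κ h l π φ (e u), ?_, ?_, ?_⟩
  · intro u x
    exact ⟨l_le_tu x, tl_le_r x⟩
  · intro u x y hxy
    rcases Nat.lt_or_ge (l y) (r x) with h1 | h1
    · obtain ⟨z, hz1, hz2⟩ := hub_of_le (π := π) hB hxy h1.le
      exact (tl_le_psi hz1).trans (psi_le_tu hz2)
    · exact (tl_le_r x).trans (h1.trans (l_le_tu y))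
  · intro x y hxy hlt
    have hlr : l y ≤ r x := hlt.le
    obtain ⟨hτ1, hτ2⟩ := hτ (l y) (r x) hlr
    obtain ⟨t, ht⟩ : ∃ t, t = τ (l y) (r x) := ⟨_, rfl⟩
    rw [← ht] at hτ1 hτ2
    obtain ⟨U, hU⟩ : ∃ U : Set (Set (Fin M)), U = {X | ∃ p, Up π κ x p ∧ {i | t ≤ φ i p} ⊆ X} :=
      ⟨_, rfl⟩
    refine ⟨e.symm U, ?_⟩
    show tu κ h l π φ (e (e.symm U)) y ≤ tl κ h r π φ (e (e.symm U)) x
    rw [e.apply_symm_apply]
    have h1 : tu κ h l π φ U y ≤ t := by
      refine tu_le hτ1 fun q hq => psi_le fun v X hX hv => ?_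
      rw [hU] at hX
      obtain ⟨p, hp, hpX⟩ := hX
      have hqp : q ≠ p := by
        rintro rfl
        exact hxy ((up_le hp).trans (dn_le hq))
      obtain ⟨i, hi1, hi2⟩ := hsep q (Set.mem_univ _) p (Set.mem_univ _) hqp (l y)
        (Or.inr ⟨y, hq, rfl⟩) (r x) (Or.inl ⟨x, hp, rfl⟩) hlr
      rw [← ht] at hi1 hi2
      exact (hv i (hpX hi2)).trans hi1
    have h2 : t ≤ tl κ h r π φ U x := by
      refine le_tl hτ2 fun p hp => ?_
      refine le_psi (hτ2.trans (hB.r_le x)) {i | t ≤ φ i p} ?_ fun i hi => hi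
      rw [hU]
      exact ⟨p, hp, le_rfl⟩
    exact h1.trans h2

end Pool.Agent.MP763071.Two
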